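import Pool.Agent.H.MP_debe6c_al.P

set_option autoImplicit false

namespace Pool.Agent.Results.MP_debe6c_al.Yes

open Pool.Agent.H

/-- pro-p groups -/
def IsProP (p : ℕ) (G : Type) [Group G] [TopologicalSpace G] : Prop :=
  IsTopologicalGroup G ∧ CompactSpace G ∧ T2Space G ∧ TotallyDisconnectedSpace G ∧
    ∀ N : Subgroup G, N.Normal → IsOpen (N : Set G) → ∃ k : ℕ, N.index = p ^ k

/-- `F` is a free pro-p group with basis `x` -/
def IsFreeProP (p : ℕ) {d : ℕ} {F : Type} [Group F] [TopologicalSpace F] (x : Fin d → F) : Prop :=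
  IsProP p F ∧ Dense (Subgroup.closure (Set.range x) : Set F) ∧
    ∀ (P : Type) [Group P] [Finite P], IsPGroup p P → ∀ a : Fin d → P,
      ∃ f : F →* P, IsOpen (f.ker : Set F) ∧ ∀ i, f (x i) = a i

theorem result (p : ℕ) (hp : p.Prime) (G : Type) [Group G] [TopologicalSpace G] (hG : IsProP p G)
    (d r : ℕ) (hd : 2 < d) (hr : 4 * r ≤ d ^ 2)
    (hg : Nat.card {φ : G →* Multiplicative (ZMod p) // IsOpen (φ.ker : Set G)} = p ^ d)
    (F : Type) [Group F] [TopologicalSpace F] (x : Fin d → F) (hF : IsFreeProP p x)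
    (π : F →* G) (hπ : Continuous π) (hs : Function.Surjective π) (ρ : Fin r → F)
    (hk : (π.ker : Set F) = closure (Subgroup.normalClosure (Set.range ρ) : Set F)) :
    ∃ H : Subgroup G, IsClosed (H : Set G) ∧ ∃ y : Fin 2 → H, IsFreeProP p y := by
  obtain ⟨_, _, _, _, g5⟩ := hG
  obtain ⟨⟨_, _, -⟩, f2, f3⟩ := hF
  have := Fact.mk hp
  obtain ⟨h1, h2⟩ := MP_debe6c_al.lower hd hr hg f2 f3 π hπ hs ρ hk
  obtain ⟨z, hz⟩ := MP_43f46b_al.limit MP_43f46b_al.jc_fl MP_43f46b_al.jc1 (fun i => π (x i))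
    (show (1 : ℝ) < 5 / 4 by norm_num) 1 (MP_debe6c_al.grow (MP_43f46b_al.nor_fac
      MP_43f46b_al.jc_fl fun _ => MP_43f46b_al.jc1 _) h2) (MP_debe6c_al.jc_open' h1)
  have hc := (Subgroup.closure ({z true, z false} : Set G)).isClosed_topologicalClosure
  refine ⟨_, hc, ![⟨z true, Subgroup.le_topologicalClosure _ (Subgroup.subset_closure (by simp))⟩,
    ⟨z false, Subgroup.le_topologicalClosure _ (Subgroup.subset_closure (by simp))⟩],
    ⟨inferInstance, isCompact_iff_compactSpace.1 hc.isCompact, inferInstance, inferInstance,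
      fun U _ hU => ?_⟩, ?_, fun P _ _ hP a => ?_⟩
  · obtain ⟨V, v1, v2⟩ := isOpen_induced_iff.1 hU
    obtain ⟨N, hN⟩ := ProfiniteGrp.exist_openNormalSubgroup_sub_open_nhds_of_one v1
      (show ((1 : (Subgroup.closure ({z true, z false} : Set G)).topologicalClosure) : G) ∈ V from
        (v2.symm ▸ U.one_mem : _ ∈ Subtype.val ⁻¹' V))
    obtain ⟨k, e⟩ := g5 N.1.1 N.2 N.1.2
    obtain ⟨j, -, hj⟩ := (Nat.dvd_prime_pow hp).1 (e ▸ (Subgroup.index_dvd_of_le
      (show N.1.1.subgroupOf _ ≤ U from fun g hg => (v2 ▸ hN hg : g ∈ (U : Set _)))).trans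
      (Subgroup.relIndex_dvd_index_of_normal N.1.1 _))
    exact ⟨j, hj⟩
  · rw [Subtype.dense_iff, ← Subgroup.coe_subtype, ← Subgroup.coe_map, MonoidHom.map_closure,
      ← Set.range_comp]
    refine closure_mono (Subgroup.closure_mono ?_)
    rintro _ (rfl | rfl)
    exacts [⟨0, rfl⟩, ⟨1, rfl⟩]
  · obtain ⟨f, k1, k2, k3⟩ := MP_43f46b_al.free _ (MP_debe6c_al.jc_open' h1) z hz P hP (a 0) (a 1)
    exact ⟨f, k1, Fin.forall_fin_two.2 ⟨k2 _ rfl, k3 _ rfl⟩⟩

end Pool.Agent.Results.MP_debe6c_al.Yes
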